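import Pool.Graph.R_seed8.R629.FreeCent

set_option autoImplicit false

/-!
Frobenius partitions of nonabelian free groups: general construction from a normal subgroup with
torsion-free quotient and a family of malnormal subgroups.
-/

namespace Pool.Agent.KS6_95.FP

open Pool.Agent.R629

universe u

/-- `{N} ∪ 𝒜` is a nontrivial Frobenius partition of the group `G`. -/
structure IsFrobeniusPartition {G : Type u} [Group G] (N : Subgroup G) (𝒜 : Set (Subgroup G)) :
    Prop where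
  /-- `N` is normal. -/
  normal : N.Normal
  /-- Every nontrivial element lies in exactly one member of `{N} ∪ 𝒜`. -/
  partition : ∀ g : G, g ≠ 1 → ∃! H : Subgroup G, (H = N ∨ H ∈ 𝒜) ∧ g ∈ H
  /-- The members of `𝒜` are malnormal: `γ⁻¹ A γ ∩ A = 1` for `γ ∉ A`. -/
  malnormal : ∀ A ∈ 𝒜, ∀ γ : G, γ ∉ A → A.map (MulAut.conj γ⁻¹).toMonoidHom ⊓ A = ⊥
  /-- Every conjugate `γ⁻¹ A γ` of a member of `𝒜` is in `𝒜`. -/
  conj : ∀ A ∈ 𝒜, ∀ γ : G, A.map (MulAut.conj γ⁻¹).toMonoidHom ∈ 𝒜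
  /-- The partition contains at least two nontrivial subgroups. -/
  nontrivial : ∃ H K : Subgroup G, (H = N ∨ H ∈ 𝒜) ∧ (K = N ∨ K ∈ 𝒜) ∧ H ≠ K ∧ H ≠ ⊥ ∧ K ≠ ⊥

/-- The quotient by `N` has no torsion: if a power of `g` with positive exponent is in `N`, then
`g` is in `N`. -/
def Isolated {G : Type u} [Group G] (N : Subgroup G) : Prop :=
  ∀ (g : G) (n : ℕ), 0 < n → g ^ n ∈ N → g ∈ N

section General

variable {G : Type u} [Group G]

theorem mem_conj {A : Subgroup G} {g x : G} :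
    x ∈ A.map (MulAut.conj g⁻¹).toMonoidHom ↔ g * x * g⁻¹ ∈ A := by
  constructor
  · rintro ⟨a, ha, rfl⟩
    simp only [MulEquiv.coe_toMonoidHom, MulAut.conj_apply, inv_inv, SetLike.mem_coe] at ha ⊢
    convert ha using 1
    group
  · intro h
    refine ⟨_, h, ?_⟩
    simp only [MulEquiv.coe_toMonoidHom, MulAut.conj_apply, inv_inv]
    group

/-- Malnormality, elementwise. -/
def Mal (A : Subgroup G) : Prop := ∀ g x : G, x ∈ A → x ≠ 1 → g * x * g⁻¹ ∈ A → g ∈ A

theorem mal_iff {A : Subgroup G} :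
    Mal A ↔ ∀ γ : G, γ ∉ A → A.map (MulAut.conj γ⁻¹).toMonoidHom ⊓ A = ⊥ := by
  constructor
  · intro h γ hγ
    rw [eq_bot_iff]
    rintro x ⟨hx1, hx2⟩
    rw [Subgroup.mem_bot]
    by_contra hne
    exact hγ (h γ x hx2 hne (mem_conj.mp hx1))
  · intro h g x hx hne hgx
    by_contra hg
    have h1 := h g hg
    have h2 : x ∈ A.map (MulAut.conj g⁻¹).toMonoidHom ⊓ A := ⟨mem_conj.mpr hgx, hx⟩
    rw [h1, Subgroup.mem_bot] at h2
    exact hne h2

theorem unique_member {N : Subgroup G} {𝒜 : Set (Subgroup G)} (h : IsFrobeniusPartition N 𝒜)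
    {H K : Subgroup G} {g : G} (hg : g ≠ 1) (hH : H = N ∨ H ∈ 𝒜) (hK : K = N ∨ K ∈ 𝒜)
    (h1 : g ∈ H) (h2 : g ∈ K) : H = K :=
  (h.partition g hg).unique ⟨hH, h1⟩ ⟨hK, h2⟩

theorem ne_top_of {N : Subgroup G} {𝒜 : Set (Subgroup G)} (h : IsFrobeniusPartition N 𝒜) :
    N ≠ ⊤ := by
  rintro rfl
  obtain ⟨H, K, hH, hK, hne, hH1, hK1⟩ := h.nontrivial
  apply hne
  have key : ∀ H : Subgroup G, (H = ⊤ ∨ H ∈ 𝒜) → H ≠ ⊥ → H = ⊤ := by
    intro H hH hH1
    obtain ⟨x, hx, hx1⟩ := H.bot_or_exists_ne_one.resolve_left hH1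
    exact unique_member h hx1 hH (Or.inl rfl) hx (Subgroup.mem_top _)
  rw [key H hH hH1, key K hK hK1]

theorem isolated_of (tf : ∀ (g : G) (n : ℕ), 0 < n → g ^ n = 1 → g = 1) {N : Subgroup G}
    {𝒜 : Set (Subgroup G)} (h : IsFrobeniusPartition N 𝒜) : Isolated N := by
  intro g n hn hgn
  by_contra hg
  have hg1 : g ≠ 1 := by rintro rfl; exact hg N.one_mem
  obtain ⟨H, ⟨hH, hgH⟩, -⟩ := h.partition g hg1
  have hgn1 : g ^ n ≠ 1 := fun h1 => hg1 (tf g n hn h1)
  have : H = N := unique_member h hgn1 hH (Or.inl rfl) (H.pow_mem hgH n) hgn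
  exact hg (this ▸ hgH)

end General

section Free

variable {F : Type u} [Group F] [IsFreeGroup F]

theorem torsionFree_nat (g : F) (n : ℕ) (hn : 0 < n) (h : g ^ n = 1) : g = 1 := by
  by_contra hg
  have := FreeCent.torsionFree hg (k := (n : ℤ)) (by simpa using h)
  omega

omit [IsFreeGroup F] in
lemma mem_cent {g h : F} : h ∈ Subgroup.centralizer {g} ↔ h * g = g * h :=
  Subgroup.mem_centralizer_singleton_iff

theorem cent_mal {g : F} (hg : g ≠ 1) : Mal (Subgroup.centralizer {g}) := by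
  intro y x hx hx1 h
  rw [mem_cent] at hx h ⊢
  have h1 : (y⁻¹)⁻¹ * x * y⁻¹ * g = g * ((y⁻¹)⁻¹ * x * y⁻¹) := by rw [inv_inv]; exact h
  have h2 := FreeCent.malnormal hg hx1 hx h1
  calc y * g = y * (g * y⁻¹) * y := by group
    _ = y * (y⁻¹ * g) * y := by rw [h2]
    _ = g * y := by group

theorem cent_eq {g h : F} (hg : g ≠ 1) (hh : h ≠ 1) (hc : h ∈ Subgroup.centralizer {g}) :
    Subgroup.centralizer {g} = Subgroup.centralizer {h} := by
  rw [mem_cent] at hc
  ext x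
  rw [mem_cent, mem_cent]
  constructor
  · intro hx
    exact FreeCent.comm_trans hg hx hc.symm
  · intro hx
    exact FreeCent.comm_trans hh hx hc

/-- A nontrivial element commuting with a nontrivial element of an isolated subgroup is in it. -/
theorem mem_of_comm {N : Subgroup F} (hN : Isolated N) {g h : F} (hg : g ≠ 1)
    (hgh : g * h = h * g) (hgN : g ∈ N) : h ∈ N := by
  obtain ⟨r, -, hr⟩ := FreeCent.exists_root hg
  obtain ⟨a, ha⟩ := hr g rfl
  obtain ⟨b, hb⟩ := hr h hgh.symm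
  have ha0 : a ≠ 0 := by rintro rfl; apply hg; simpa using ha
  have h1 : r ∈ N := by
    apply hN r a.natAbs (Int.natAbs_pos.mpr ha0)
    rcases Int.natAbs_eq a with h2 | h2
    · rw [← zpow_natCast, ← h2, ← ha]; exact hgN
    · rw [← zpow_natCast]
      have : ((a.natAbs : ℕ) : ℤ) = -a := by omega
      rw [this, zpow_neg, ← ha]
      exact N.inv_mem hgN
  rw [hb]
  exact N.zpow_mem h1 b

/-- The centralizers of the elements outside `N` and outside the members of `𝒞`. -/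
def cents (N : Subgroup F) (𝒞 : Set (Subgroup F)) : Set (Subgroup F) :=
  {A | ∃ g, g ∉ N ∧ (∀ C ∈ 𝒞, g ∉ C) ∧ A = Subgroup.centralizer {g}}

/-- The general construction of Frobenius partitions of a nonabelian free group. -/
theorem frobenius {N : Subgroup F} [hn : N.Normal] (hN : Isolated N) (htop : N ≠ ⊤)
    (hF : ∃ a b : F, a * b ≠ b * a) {𝒞 : Set (Subgroup F)}
    (hmal : ∀ C ∈ 𝒞, Mal C) (hconj : ∀ C ∈ 𝒞, ∀ γ : F, C.map (MulAut.conj γ⁻¹).toMonoidHom ∈ 𝒞)
    (hdisjN : ∀ C ∈ 𝒞, N ⊓ C = ⊥) (hpair : ∀ C ∈ 𝒞, ∀ D ∈ 𝒞, ∀ g, g ≠ 1 → g ∈ C → g ∈ D → C = D)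
    (hCtop : ⊤ ∉ 𝒞) :
    IsFrobeniusPartition N (𝒞 ∪ cents N 𝒞) := by
  have ne1 : ∀ {g : F}, g ∉ N → g ≠ 1 := by
    rintro g hg rfl
    exact hg (Subgroup.one_mem _)
  have hdisj : ∀ {g h : F}, g ∉ N → h ≠ 1 → h ∈ Subgroup.centralizer {g} → h ∉ N := by
    intro g h hg hh hc hk
    apply hg
    exact mem_of_comm hN hh (mem_cent.mp hc) hk
  have hdisjC : ∀ {g h : F} {C : Subgroup F}, C ∈ 𝒞 → g ∉ C → h ≠ 1 →
      h ∈ Subgroup.centralizer {g} → h ∉ C := by
    intro g h C hC hg hh hc hk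
    apply hg
    apply hmal C hC g h hk hh
    have : g * h * g⁻¹ = h := by
      rw [← mem_cent.mp hc]; group
    rw [this]
    exact hk
  have hpart : ∀ g : F, g ≠ 1 → ∃! H : Subgroup F, (H = N ∨ H ∈ 𝒞 ∪ cents N 𝒞) ∧ g ∈ H := by
    intro g hg
    by_cases hk : g ∈ N
    · refine ⟨N, ⟨Or.inl rfl, hk⟩, ?_⟩
      rintro H ⟨rfl | hC | ⟨h, hh, -, rfl⟩, hmem⟩
      · rfl
      · exfalso
        have : g ∈ N ⊓ H := ⟨hk, hmem⟩
        rw [hdisjN H hC, Subgroup.mem_bot] at this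
        exact hg this
      · exact absurd hk (hdisj hh hg hmem)
    · by_cases hC : ∃ C ∈ 𝒞, g ∈ C
      · obtain ⟨C, hC, hgC⟩ := hC
        refine ⟨C, ⟨Or.inr (Or.inl hC), hgC⟩, ?_⟩
        rintro H ⟨rfl | hH | ⟨h, hh, hhC, rfl⟩, hmem⟩
        · exact absurd hmem hk
        · exact hpair H hH C hC g hg hmem hgC
        · exact absurd hgC (hdisjC hC (hhC C hC) hg hmem)
      · push Not at hC
        refine ⟨Subgroup.centralizer {g}, ⟨Or.inr (Or.inr ⟨g, hk, hC, rfl⟩), mem_cent.mpr rfl⟩, ?_⟩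
        rintro H ⟨rfl | hH | ⟨h, hh, hhC, rfl⟩, hmem⟩
        · exact absurd hmem hk
        · exact absurd hmem (hC H hH)
        · exact cent_eq (ne1 hh) hg hmem
  refine ⟨hn, hpart, ?_, ?_, ?_⟩
  · rintro A (hA | ⟨g, hg, -, rfl⟩)
    · exact mal_iff.mp (hmal A hA)
    · exact mal_iff.mp (cent_mal (ne1 hg))
  · rintro A (hA | ⟨g, hg, hgC, rfl⟩) γ
    · exact Or.inl (hconj A hA γ)
    · refine Or.inr ⟨γ⁻¹ * g * γ, ?_, ?_, ?_⟩
      · intro h
        apply hg
        have := hn.conj_mem _ h γ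
        convert this using 1
        group
      · intro C hC h
        apply hgC _ (hconj C hC γ⁻¹)
        rw [mem_conj, inv_inv]
        exact h
      · ext x
        rw [mem_conj, mem_cent, mem_cent]
        constructor
        · intro h
          calc x * (γ⁻¹ * g * γ) = γ⁻¹ * (γ * x * γ⁻¹ * g) * γ := by group
            _ = γ⁻¹ * (g * (γ * x * γ⁻¹)) * γ := by rw [h]
            _ = γ⁻¹ * g * γ * x := by group
        · intro h
          calc γ * x * γ⁻¹ * g = γ * (x * (γ⁻¹ * g * γ)) * γ⁻¹ := by group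
            _ = γ * (γ⁻¹ * g * γ * x) * γ⁻¹ := by rw [h]
            _ = g * (γ * x * γ⁻¹) := by group
  · -- nontriviality
    obtain ⟨a, b, hab⟩ := hF
    by_contra hcon
    push Not at hcon
    -- all nontrivial members coincide
    have hall : ∃ H : Subgroup F, (H = N ∨ H ∈ 𝒞 ∪ cents N 𝒞) ∧ H = ⊤ := by
      have ha1 : a ≠ 1 := by rintro rfl; exact hab (by simp)
      obtain ⟨H, ⟨hH, haH⟩, -⟩ := hpart a ha1
      refine ⟨H, hH, ?_⟩
      rw [eq_top_iff]
      intro x _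
      by_cases hx : x = 1
      · rw [hx]; exact H.one_mem
      · obtain ⟨K, ⟨hK, hxK⟩, -⟩ := hpart x hx
        by_cases hHK : H = K
        · rw [hHK]; exact hxK
        · exfalso
          have h1 : H ≠ ⊥ := by
            rintro rfl
            exact ha1 (Subgroup.mem_bot.mp haH)
          have h2 := hcon H K hH hK hHK h1
          rw [h2] at hxK
          exact hx (Subgroup.mem_bot.mp hxK)
    obtain ⟨H, hH, rfl⟩ := hall
    rcases hH with h | h | ⟨g, hg, -, h⟩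
    · exact htop h.symm
    · exact hCtop h
    · apply hab
      have h1 : a ∈ Subgroup.centralizer {g} := h ▸ Subgroup.mem_top a
      have h2 : b ∈ Subgroup.centralizer {g} := h ▸ Subgroup.mem_top b
      exact FreeCent.comm_trans (ne1 hg) (mem_cent.mp h1) (mem_cent.mp h2).symm

end Free

end Pool.Agent.KS6_95.FP
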