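import Pool.Agent.KS6_95.FP.Basic

set_option autoImplicit false

/-!
Complements of the normal member of a Frobenius partition of a nonabelian free group.
-/

namespace Pool.Agent.KS6_95.FP

open Pool.Agent.R629

universe u

section

variable {F : Type u} [Group F] [IsFreeGroup F]

omit [IsFreeGroup F] in
/-- A free quotient has no torsion. -/
theorem isolated_of_free (N : Subgroup F) [N.Normal] [IsFreeGroup (F ⧸ N)] : Isolated N := by
  intro g n hn h
  rw [← QuotientGroup.eq_one_iff] at h ⊢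
  exact torsionFree_nat (F := F ⧸ N) (g : F ⧸ N) n hn (by simpa using h)

omit [IsFreeGroup F] in
/-- A homomorphic section of a free quotient. -/
theorem exists_section (N : Subgroup F) [N.Normal] [IsFreeGroup (F ⧸ N)] :
    ∃ s : (F ⧸ N) →* F, ∀ x, ((s x : F) : F ⧸ N) = x := by
  let s : (F ⧸ N) →* F := IsFreeGroup.lift fun i => Quotient.out (IsFreeGroup.of (G := F ⧸ N) i)
  refine ⟨s, ?_⟩
  have h : (QuotientGroup.mk' N).comp s = MonoidHom.id _ := by
    apply IsFreeGroup.ext_hom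
    intro a
    rw [MonoidHom.comp_apply, IsFreeGroup.lift_of]
    exact Quotient.out_eq _
  intro x
  exact congrArg (fun f => f x) h

/-- The image of a section is malnormal. -/
theorem range_mal {N : Subgroup F} [N.Normal] (hN : Isolated N) (s : (F ⧸ N) →* F)
    (hs : ∀ x, ((s x : F) : F ⧸ N) = x) : Mal s.range := by
  intro g x hx hx1 hg
  -- the retraction
  let ρ : F →* F := s.comp (QuotientGroup.mk' N)
  have hρ : ∀ y ∈ s.range, ρ y = y := by
    rintro y ⟨z, rfl⟩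
    change s ((s z : F) : F ⧸ N) = s z
    rw [hs]
  have hρr : ∀ y, ρ y ∈ s.range := fun y => ⟨_, rfl⟩
  have hρN : ∀ y, (ρ y)⁻¹ * y ∈ N := by
    intro y
    rw [← QuotientGroup.eq]
    change ((s (y : F ⧸ N) : F) : F ⧸ N) = y
    rw [hs]
  have h1 : ρ g * x * (ρ g)⁻¹ = g * x * g⁻¹ := by
    have := hρ _ hg
    rw [map_mul, map_mul, map_inv, hρ x hx] at this
    exact this
  -- `(ρ g)⁻¹ g` commutes with `x`
  have h2 : ((ρ g)⁻¹ * g) * x = x * ((ρ g)⁻¹ * g) := by
    calc ((ρ g)⁻¹ * g) * x = (ρ g)⁻¹ * (g * x * g⁻¹) * g := by group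
      _ = (ρ g)⁻¹ * (ρ g * x * (ρ g)⁻¹) * g := by rw [h1]
      _ = x * ((ρ g)⁻¹ * g) := by group
  by_cases h3 : (ρ g)⁻¹ * g = 1
  · have : g = ρ g := by
      calc g = ρ g * ((ρ g)⁻¹ * g) := by group
        _ = ρ g := by rw [h3, mul_one]
    rw [this]; exact hρr g
  · exfalso
    have h4 : x ∈ N := mem_of_comm hN h3 h2 (hρN g)
    apply hx1
    rw [← hρ x hx]
    change s (x : F ⧸ N) = 1
    rw [(QuotientGroup.eq_one_iff x).mpr h4, map_one]

/-- The conjugates of a subgroup. -/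
def conjs (A : Subgroup F) : Set (Subgroup F) :=
  {B | ∃ γ : F, B = A.map (MulAut.conj γ⁻¹).toMonoidHom}

omit [IsFreeGroup F] in
theorem self_mem_conjs (A : Subgroup F) : A ∈ conjs A := by
  refine ⟨1, ?_⟩
  ext x
  rw [mem_conj]; simp

/-- Frobenius partitions with a given complement. -/
theorem frobenius_of_compl {N : Subgroup F} [hn : N.Normal] (hN : Isolated N) (htop : N ≠ ⊤)
    (hF : ∃ a b : F, a * b ≠ b * a) {A : Subgroup F} (hA : Mal A) (hAN : N ⊓ A = ⊥)
    (hA1 : A ≠ ⊤) : IsFrobeniusPartition N (conjs A ∪ cents N (conjs A)) := by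
  apply frobenius hN htop hF
  · rintro C ⟨γ, rfl⟩ g x hx hx1 hg
    rw [mem_conj] at hx hg ⊢
    apply hA (γ * g * γ⁻¹) (γ * x * γ⁻¹) hx
    · intro h
      apply hx1
      calc x = γ⁻¹ * (γ * x * γ⁻¹) * γ := by group
        _ = 1 := by rw [h]; group
    · convert hg using 1
      group
  · rintro C ⟨γ, rfl⟩ δ
    refine ⟨γ * δ, ?_⟩
    ext x
    rw [mem_conj, mem_conj, mem_conj]
    constructor <;> intro h <;> convert h using 1 <;> group
  · rintro C ⟨γ, rfl⟩
    rw [eq_bot_iff]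
    rintro x ⟨hx1, hx2⟩
    have hx2' := mem_conj.mp hx2
    have h3 : γ * x * γ⁻¹ ∈ N ⊓ A := ⟨hn.conj_mem _ hx1 γ, hx2'⟩
    rw [hAN, Subgroup.mem_bot] at h3
    rw [Subgroup.mem_bot]
    calc x = γ⁻¹ * (γ * x * γ⁻¹) * γ := by group
      _ = 1 := by rw [h3]; group
  · rintro C ⟨γ, rfl⟩ D ⟨δ, rfl⟩ g hg1 hgC hgD
    rw [mem_conj] at hgC hgD
    -- `δ γ⁻¹ ∈ A`
    have h1 : δ * γ⁻¹ ∈ A := by
      apply hA (δ * γ⁻¹) (γ * g * γ⁻¹) hgC
      · intro h
        apply hg1
        calc g = γ⁻¹ * (γ * g * γ⁻¹) * γ := by group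
          _ = 1 := by rw [h]; group
      · convert hgD using 1
        group
    ext x
    rw [mem_conj, mem_conj]
    constructor
    · intro h
      have : δ * x * δ⁻¹ = (δ * γ⁻¹) * (γ * x * γ⁻¹) * (δ * γ⁻¹)⁻¹ := by group
      rw [this]
      exact A.mul_mem (A.mul_mem h1 h) (A.inv_mem h1)
    · intro h
      have : γ * x * γ⁻¹ = (δ * γ⁻¹)⁻¹ * (δ * x * δ⁻¹) * (δ * γ⁻¹) := by group
      rw [this]
      exact A.mul_mem (A.mul_mem (A.inv_mem h1) h) h1
  · rintro ⟨γ, h⟩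
    apply hA1
    rw [eq_top_iff]
    intro x _
    have h1 : γ⁻¹ * x * γ ∈ A.map (MulAut.conj γ⁻¹).toMonoidHom := h ▸ Subgroup.mem_top _
    rw [mem_conj] at h1
    convert h1 using 1
    group

omit [IsFreeGroup F] in
theorem range_inf {N : Subgroup F} [N.Normal] (s : (F ⧸ N) →* F)
    (hs : ∀ x, ((s x : F) : F ⧸ N) = x) : N ⊓ s.range = ⊥ := by
  rw [eq_bot_iff]
  rintro x ⟨hx, y, rfl⟩
  rw [Subgroup.mem_bot]
  have h : ((s y : F) : F ⧸ N) = 1 := (QuotientGroup.eq_one_iff _).mpr hx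
  rw [hs] at h
  rw [h, map_one]

omit [IsFreeGroup F] in
theorem range_sup {N : Subgroup F} [N.Normal] (s : (F ⧸ N) →* F)
    (hs : ∀ x, ((s x : F) : F ⧸ N) = x) : N ⊔ s.range = ⊤ := by
  rw [eq_top_iff]
  intro x _
  have h1 : (s (x : F ⧸ N))⁻¹ * x ∈ N := by
    rw [← QuotientGroup.eq, hs]
  have h2 : x = s (x : F ⧸ N) * ((s (x : F ⧸ N))⁻¹ * x) := by group
  rw [h2]
  exact Subgroup.mul_mem _ (Subgroup.mem_sup_right ⟨_, rfl⟩) (Subgroup.mem_sup_left h1)

/-- A complement of `N` is isomorphic to the quotient by `N`. -/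
theorem free_of_compl {N : Subgroup F} [N.Normal] {A : Subgroup F} (h1 : N ⊔ A = ⊤)
    (h2 : N ⊓ A = ⊥) : IsFreeGroup (F ⧸ N) := by
  let f : A →* F ⧸ N := (QuotientGroup.mk' N).comp A.subtype
  have hinj : Function.Injective f := by
    rw [injective_iff_map_eq_one]
    intro a ha
    have h3 : (a : F) ∈ N := (QuotientGroup.eq_one_iff _).mp ha
    have h4 : (a : F) ∈ N ⊓ A := ⟨h3, a.2⟩
    rw [h2, Subgroup.mem_bot] at h4
    exact Subtype.ext h4
  have hsurj : Function.Surjective f := by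
    intro y
    obtain ⟨x, rfl⟩ := QuotientGroup.mk_surjective y
    have hx : x ∈ N ⊔ A := h1 ▸ Subgroup.mem_top x
    rw [Subgroup.mem_sup_of_normal_left] at hx
    obtain ⟨n, hn, a, ha, rfl⟩ := hx
    refine ⟨⟨a, ha⟩, ?_⟩
    change ((a : F) : F ⧸ N) = ((n * a : F) : F ⧸ N)
    rw [QuotientGroup.mk_mul, (QuotientGroup.eq_one_iff n).mpr hn, one_mul]
  exact IsFreeGroup.ofMulEquiv (MulEquiv.ofBijective f ⟨hinj, hsurj⟩)

/-- The normal members for which some Frobenius partition contains a complement. -/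
theorem compl_iff (hF : ∃ a b : F, a * b ≠ b * a) (N : Subgroup F) [hn : N.Normal] :
    (∃ 𝒜, IsFrobeniusPartition N 𝒜 ∧ ∃ A ∈ 𝒜, N ⊔ A = ⊤ ∧ N ⊓ A = ⊥) ↔
      N ≠ ⊥ ∧ N ≠ ⊤ ∧ IsFreeGroup (F ⧸ N) := by
  constructor
  · rintro ⟨𝒜, h, A, hA, h1, h2⟩
    refine ⟨?_, ne_top_of h, free_of_compl h1 h2⟩
    rintro rfl
    rw [bot_sup_eq] at h1
    subst h1
    obtain ⟨H, K, hH, hK, hne, hH1, hK1⟩ := h.nontrivial
    apply hne
    have key : ∀ H : Subgroup F, (H = ⊥ ∨ H ∈ 𝒜) → H ≠ ⊥ → H = ⊤ := by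
      intro H hH hH1
      obtain ⟨x, hx, hx1⟩ := H.bot_or_exists_ne_one.resolve_left hH1
      exact unique_member h hx1 hH (Or.inr hA) hx (Subgroup.mem_top _)
    rw [key H hH hH1, key K hK hK1]
  · rintro ⟨h1, h2, h3⟩
    obtain ⟨s, hs⟩ := exists_section N
    have hiso := isolated_of_free N
    have hmal := range_mal hiso s hs
    have hinf := range_inf s hs
    have hsup := range_sup s hs
    have hA1 : s.range ≠ ⊤ := by
      intro h
      rw [h, inf_top_eq] at hinf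
      exact h1 hinf
    exact ⟨_, frobenius_of_compl hiso h2 hF hmal hinf hA1, s.range,
      Or.inl (self_mem_conjs _), hsup, hinf⟩

/-- The centralizer family. -/
theorem frobenius_cents (hF : ∃ a b : F, a * b ≠ b * a) {N : Subgroup F} [hn : N.Normal]
    (hN : Isolated N) (htop : N ≠ ⊤) :
    IsFrobeniusPartition N {A | ∃ g, g ∉ N ∧ A = Subgroup.centralizer {g}} := by
  have h := frobenius (𝒞 := ∅) hN htop hF (by simp) (by simp) (by simp) (by simp) (by simp)
  have h2 : (∅ ∪ cents N ∅ : Set (Subgroup F)) = {A | ∃ g, g ∉ N ∧ A = Subgroup.centralizer {g}} := by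
    ext A
    simp [cents]
  rwa [h2] at h

/-- The normal members of the nontrivial Frobenius partitions of a nonabelian free group. -/
theorem normal_member_iff (hF : ∃ a b : F, a * b ≠ b * a) (N : Subgroup F) :
    (∃ 𝒜, IsFrobeniusPartition N 𝒜) ↔ N.Normal ∧ N ≠ ⊤ ∧ Isolated N := by
  constructor
  · rintro ⟨𝒜, h⟩
    exact ⟨h.normal, ne_top_of h, isolated_of (fun g n hn h => torsionFree_nat g n hn h) h⟩
  · rintro ⟨h1, h2, h3⟩
    exact ⟨_, frobenius_cents hF h3 h2⟩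

/-- The normal members for which some Frobenius partition contains no complement. -/
theorem no_compl_iff (hF : ∃ a b : F, a * b ≠ b * a) (N : Subgroup F) [hn : N.Normal] :
    (∃ 𝒜, IsFrobeniusPartition N 𝒜 ∧ ∀ A ∈ 𝒜, N ⊔ A ≠ ⊤) ↔
      Isolated N ∧ ¬ IsCyclic (F ⧸ N) := by
  constructor
  · rintro ⟨𝒜, h, hA⟩
    have h' := (normal_member_iff hF N).mp ⟨_, h⟩
    refine ⟨h'.2.2, ?_⟩
    rintro ⟨y, hy⟩
    obtain ⟨g, rfl⟩ := QuotientGroup.mk_surjective y
    have hg : g ∉ N := by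
      intro hg
      apply h'.2.1
      rw [eq_top_iff]
      intro x _
      obtain ⟨k, hk⟩ := Subgroup.mem_zpowers_iff.mp (hy (x : F ⧸ N))
      rw [(QuotientGroup.eq_one_iff g).mpr hg, one_zpow] at hk
      exact (QuotientGroup.eq_one_iff x).mp hk.symm
    have hg1 : g ≠ 1 := by rintro rfl; exact hg N.one_mem
    obtain ⟨H, ⟨hH, hgH⟩, -⟩ := h.partition g hg1
    rcases hH with rfl | hH
    · exact hg hgH
    · apply hA H hH
      rw [eq_top_iff]
      intro x _
      obtain ⟨k, hk⟩ := Subgroup.mem_zpowers_iff.mp (hy (x : F ⧸ N))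
      rw [← QuotientGroup.mk_zpow, QuotientGroup.eq] at hk
      have h2 : x = g ^ k * ((g ^ k)⁻¹ * x) := by group
      rw [h2]
      exact Subgroup.mul_mem _ (Subgroup.mem_sup_right (H.zpow_mem hgH k))
        (Subgroup.mem_sup_left hk)
  · rintro ⟨h1, h2⟩
    have htop : N ≠ ⊤ := by
      rintro rfl
      apply h2
      have : Subsingleton (F ⧸ (⊤ : Subgroup F)) := QuotientGroup.subsingleton_quotient_top
      infer_instance
    refine ⟨_, frobenius_cents hF h1 htop, ?_⟩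
    rintro A ⟨g, hg, rfl⟩ hsup
    apply h2
    have hg1 : g ≠ 1 := by rintro rfl; exact hg N.one_mem
    obtain ⟨r, -, hr⟩ := FreeCent.exists_root hg1
    refine ⟨(r : F ⧸ N), fun y => ?_⟩
    obtain ⟨x, rfl⟩ := QuotientGroup.mk_surjective y
    have hx : x ∈ N ⊔ Subgroup.centralizer {g} := hsup ▸ Subgroup.mem_top x
    rw [Subgroup.mem_sup_of_normal_left] at hx
    obtain ⟨n, hn', a, ha, rfl⟩ := hx
    obtain ⟨k, hk⟩ := hr a (mem_cent.mp ha)
    refine ⟨k, ?_⟩
    change (r : F ⧸ N) ^ k = ((n * a : F) : F ⧸ N)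
    rw [QuotientGroup.mk_mul, (QuotientGroup.eq_one_iff n).mpr hn', one_mul, hk,
      QuotientGroup.mk_zpow]

/-- Uniqueness when the quotient contains no nonabelian free subgroup. -/
theorem unique_of_no_free (hF : ∃ a b : F, a * b ≠ b * a) (N : Subgroup F) [hn : N.Normal]
    (hQ : ∀ H : Subgroup (F ⧸ N), IsFreeGroup H → ∀ x ∈ H, ∀ y ∈ H, x * y = y * x)
    {𝒜 : Set (Subgroup F)} (h : IsFrobeniusPartition N 𝒜) :
    𝒜 \ {⊥} = {A | ∃ g, g ∉ N ∧ A = Subgroup.centralizer {g}} := by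
  -- a nontrivial member is the centralizer of each of its nontrivial elements
  have key : ∀ A ∈ 𝒜, ∀ a ∈ A, a ≠ 1 → A ≠ N → A = Subgroup.centralizer {a} := by
    intro A hA a ha ha1 hAN'
    have hAN : ∀ x ∈ A, x ∈ N → x = 1 := by
      intro x hx hxN
      by_contra hx1
      exact hAN' (unique_member h hx1 (Or.inr hA) (Or.inl rfl) hx hxN)
    let f : A →* F ⧸ N := (QuotientGroup.mk' N).comp A.subtype
    have hinj : Function.Injective f := by
      rw [injective_iff_map_eq_one]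
      intro x hx
      exact Subtype.ext (hAN x x.2 ((QuotientGroup.eq_one_iff _).mp hx))
    have hfree : IsFreeGroup f.range := IsFreeGroup.ofMulEquiv (MonoidHom.ofInjective hinj)
    have hcomm : ∀ x ∈ A, ∀ y ∈ A, x * y = y * x := by
      intro x hx y hy
      have h1 := hQ f.range hfree (f ⟨x, hx⟩) ⟨_, rfl⟩ (f ⟨y, hy⟩) ⟨_, rfl⟩
      rw [← map_mul, ← map_mul] at h1
      exact congrArg Subtype.val (hinj h1)
    ext x
    rw [mem_cent]
    constructor
    · intro hx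
      exact hcomm x hx a ha
    · intro hx
      apply mal_iff.mpr (h.malnormal A hA) x a ha ha1
      have : x * a * x⁻¹ = a := by rw [hx]; group
      rw [this]; exact ha
  have hNne := ((normal_member_iff hF N).mp ⟨_, h⟩)
  have hAN : ∀ A ∈ 𝒜, A ≠ ⊥ → A ≠ N := by
    intro A hA hA1 hAN
    -- `N` malnormal, normal and nontrivial, hence `⊤`
    apply hNne.2.1
    rw [eq_top_iff]
    intro x _
    obtain ⟨a, ha, ha1⟩ := A.bot_or_exists_ne_one.resolve_left hA1
    have h1 := mal_iff.mpr (h.malnormal A hA) x a ha ha1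
    rw [hAN] at ha h1
    exact h1 (hn.conj_mem a ha x)
  ext A
  constructor
  · rintro ⟨hA, hA1⟩
    obtain ⟨a, ha, ha1⟩ := A.bot_or_exists_ne_one.resolve_left hA1
    refine ⟨a, ?_, key A hA a ha ha1 (hAN A hA hA1)⟩
    intro haN
    exact hAN A hA hA1 (unique_member h ha1 (Or.inr hA) (Or.inl rfl) ha haN)
  · rintro ⟨g, hg, rfl⟩
    have hg1 : g ≠ 1 := by rintro rfl; exact hg N.one_mem
    obtain ⟨H, ⟨hH, hgH⟩, -⟩ := h.partition g hg1
    rcases hH with rfl | hH
    · exact absurd hgH hg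
    · have hHN : H ≠ N := by rintro rfl; exact hg hgH
      rw [← key H hH g hgH hg1 hHN]
      refine ⟨hH, ?_⟩
      rintro rfl
      exact hg1 (Subgroup.mem_bot.mp hgH)

end

end Pool.Agent.KS6_95.FP
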