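import Pool.Agent.KS6_95.FP.Compl
import Mathlib

set_option autoImplicit false

/-!
The number of the normal members of Frobenius partitions of a nonabelian free group `F` is
`2 ^ |F|`.
-/

namespace Pool.Agent.KS6_95.FP

open Pool.Agent.R629 LaurentPolynomial

universe u

noncomputable section

/-! ### A group of matrices over the Laurent polynomials -/

/-- Matrices `(1 f h; 0 T^n g; 0 0 1)` over the Laurent polynomials. -/
@[ext] structure HG where
  n : ℤ
  f : ℤ[T;T⁻¹]
  g : ℤ[T;T⁻¹]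
  h : ℤ[T;T⁻¹]

namespace HG

instance : Mul HG := ⟨fun a b => ⟨a.n + b.n, b.f + T b.n * a.f, a.g + T a.n * b.g,
  a.h + b.h + a.f * b.g⟩⟩
instance : One HG := ⟨⟨0, 0, 0, 0⟩⟩
instance : Inv HG := ⟨fun a => ⟨-a.n, -(T (-a.n) * a.f), -(T (-a.n) * a.g),
  -a.h + a.f * (T (-a.n) * a.g)⟩⟩

theorem mul_def (a b : HG) : a * b = ⟨a.n + b.n, b.f + T b.n * a.f, a.g + T a.n * b.g,
  a.h + b.h + a.f * b.g⟩ := rfl
theorem one_def : (1 : HG) = ⟨0, 0, 0, 0⟩ := rfl
theorem inv_def (a : HG) : a⁻¹ = ⟨-a.n, -(T (-a.n) * a.f), -(T (-a.n) * a.g),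
  -a.h + a.f * (T (-a.n) * a.g)⟩ := rfl

instance : Group HG := Group.ofLeftAxioms
  (by
    intro a b c
    simp only [mul_def]
    ext1
    · ring
    · simp only [T_add]; ring
    · simp only [T_add]; ring
    · ring)
  (by
    intro a
    simp only [mul_def, one_def]
    ext1 <;> simp)
  (by
    intro a
    have h : (T (-a.n) : ℤ[T;T⁻¹]) * T a.n = 1 := by
      rw [← T_add, neg_add_cancel, T_zero]
    simp only [mul_def, one_def, inv_def]
    ext1
    · simp
    · simp only; linear_combination (-a.f) * h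
    · simp only; ring
    · simp only; ring)

theorem mul_n (a b : HG) : (a * b).n = a.n + b.n := rfl

theorem pow_n (a : HG) (m : ℕ) : (a ^ m).n = m * a.n := by
  induction m with
  | zero => simp [one_def]
  | succ m ih => rw [pow_succ, mul_n, ih]; push_cast; ring

theorem pow_f (a : HG) (ha : a.n = 0) (m : ℕ) : (a ^ m).f = m • a.f := by
  induction m with
  | zero => simp [one_def]
  | succ m ih =>
    rw [pow_succ, mul_def]
    simp only [ih, ha, T_zero, one_mul, succ_nsmul]
    ring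

theorem pow_g (a : HG) (ha : a.n = 0) (m : ℕ) : (a ^ m).g = m • a.g := by
  induction m with
  | zero => simp [one_def]
  | succ m ih =>
    rw [pow_succ, mul_def]
    have h1 : (a ^ m).n = 0 := by rw [pow_n, ha, mul_zero]
    simp only [ih, h1, T_zero, one_mul, succ_nsmul]

theorem pow_h (a : HG) (hg : a.g = 0) (m : ℕ) :
    (a ^ m).h = m • a.h := by
  induction m with
  | zero => simp [one_def]
  | succ m ih =>
    rw [pow_succ, mul_def]
    simp only [ih, hg, mul_zero, add_zero, succ_nsmul]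

/-- The two generators. -/
def ga : HG := ⟨0, 1, 1, 0⟩
def gt : HG := ⟨1, 0, 0, 0⟩

theorem gt_pow (j : ℕ) : gt ^ j = ⟨(j : ℤ), 0, 0, 0⟩ := by
  induction j with
  | zero => simp [one_def]
  | succ j ih =>
    rw [pow_succ, ih, mul_def]
    ext1 <;> simp [gt]

theorem conj_eq (j : ℕ) : (gt ^ j)⁻¹ * ga * gt ^ j = ⟨0, T (j : ℤ), T (-(j : ℤ)), 0⟩ := by
  rw [gt_pow, inv_def, mul_def, mul_def]
  ext1 <;> simp [ga]

theorem comm_eq (j : ℕ) : ga * ((gt ^ j)⁻¹ * ga * gt ^ j) * ga⁻¹ * ((gt ^ j)⁻¹ * ga * gt ^ j)⁻¹ =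
    ⟨0, 0, 0, T (-(j : ℤ)) - T (j : ℤ)⟩ := by
  rw [mul_inv_eq_iff_eq_mul, mul_inv_eq_iff_eq_mul, conj_eq, mul_def, mul_def, mul_def]
  ext1
  · simp [ga]
  · simp [ga, add_comm]
  · simp [ga, add_comm]
  · simp [ga]

theorem central (h : ℤ[T;T⁻¹]) (a : HG) : a * ⟨0, 0, 0, h⟩ * a⁻¹ = ⟨0, 0, 0, h⟩ := by
  rw [mul_inv_eq_iff_eq_mul, mul_def, mul_def]
  ext1
  · simp
  · simp
  · simp
  · simp only; ring

end HG

theorem coeff_nsmul' (m : ℕ) (f : ℤ[T;T⁻¹]) (a : ℤ) : (m • f).coeff a = m * f.coeff a := by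
  rw [AddMonoidAlgebra.coeff_smul_apply, nsmul_eq_mul]

theorem nsmul_eq_zero' {m : ℕ} (hm : 0 < m) {f : ℤ[T;T⁻¹]} (h : m • f = 0) : f = 0 := by
  apply LaurentPolynomial.ext
  intro a
  have h1 : (m • f).coeff a = 0 := by rw [h]; rfl
  rw [coeff_nsmul'] at h1
  rcases mul_eq_zero.mp h1 with h1 | h1
  · have : m = 0 := by exact_mod_cast h1
    omega
  · exact h1

section

variable {F : Type u} [Group F]

/-- The subgroup for the set `S`. -/
def NS (φ : F →* HG) (S : Set ℕ) : Subgroup F where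
  carrier := {w | ∃ h : ℤ[T;T⁻¹], (∀ k ∈ S, h.coeff ((k : ℤ) + 1) = 0) ∧ φ w = ⟨0, 0, 0, h⟩}
  mul_mem' := by
    rintro a b ⟨h, hh, ha⟩ ⟨h', hh', hb⟩
    refine ⟨h + h', fun k hk => ?_, ?_⟩
    · have := hh k hk
      have := hh' k hk
      simp_all
    · rw [map_mul, ha, hb, HG.mul_def]
      ext1 <;> simp
  one_mem' := ⟨0, fun k _ => by simp, by rw [map_one, HG.one_def]⟩
  inv_mem' := by
    rintro a ⟨h, hh, ha⟩
    refine ⟨-h, fun k hk => ?_, ?_⟩
    · have := hh k hk
      simp_all
    · rw [map_inv, ha, HG.inv_def]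
      ext1 <;> simp

theorem mem_NS {φ : F →* HG} {S : Set ℕ} {w : F} : w ∈ NS φ S ↔
    ∃ h : ℤ[T;T⁻¹], (∀ k ∈ S, h.coeff ((k : ℤ) + 1) = 0) ∧ φ w = ⟨0, 0, 0, h⟩ := Iff.rfl

theorem NS_normal (φ : F →* HG) (S : Set ℕ) : (NS φ S).Normal := by
  refine ⟨fun w hw g => ?_⟩
  obtain ⟨h, hh, hw⟩ := hw
  refine ⟨h, hh, ?_⟩
  rw [map_mul, map_mul, map_inv, hw, HG.central]

theorem NS_isolated (φ : F →* HG) (S : Set ℕ) : Isolated (NS φ S) := by
  rintro w m hm ⟨h, hh, hw⟩
  rw [map_pow] at hw
  have h1 : (φ w).n = 0 := by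
    have := congrArg HG.n hw
    rw [HG.pow_n] at this
    simp only at this
    rcases mul_eq_zero.mp this with h | h
    · have : m = 0 := by exact_mod_cast h
      omega
    · exact h
  have h2 : (φ w).f = 0 := by
    have := congrArg HG.f hw
    rw [HG.pow_f _ h1] at this
    exact nsmul_eq_zero' hm this
  have h3 : (φ w).g = 0 := by
    have := congrArg HG.g hw
    rw [HG.pow_g _ h1] at this
    exact nsmul_eq_zero' hm this
  have h4 : m • (φ w).h = h := by
    have := congrArg HG.h hw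
    rwa [HG.pow_h _ h3] at this
  refine ⟨(φ w).h, fun k hk => ?_, ?_⟩
  · have h5 := hh k hk
    rw [← h4, coeff_nsmul'] at h5
    rcases mul_eq_zero.mp h5 with h5 | h5
    · have : m = 0 := by exact_mod_cast h5
      omega
    · exact h5
  · ext1
    · exact h1
    · exact h2
    · exact h3
    · rfl

/-- The words which distinguish the subgroups. -/
def wd (x y : F) (j : ℕ) : F := x * ((y ^ j)⁻¹ * x * y ^ j) * x⁻¹ * ((y ^ j)⁻¹ * x * y ^ j)⁻¹

theorem wd_mem {φ : F →* HG} {x y : F} (hx : φ x = HG.ga) (hy : φ y = HG.gt) (S : Set ℕ) (j : ℕ) :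
    wd x y (j + 1) ∈ NS φ S ↔ j ∉ S := by
  have h0 : φ (wd x y (j + 1)) = ⟨0, 0, 0, T (-((j + 1 : ℕ) : ℤ)) - T ((j + 1 : ℕ) : ℤ)⟩ := by
    rw [← HG.comm_eq, ← hx, ← hy]
    simp only [wd, map_mul, map_inv, map_pow]
  rw [mem_NS, h0]
  constructor
  · rintro ⟨h, hh, h1⟩ hj
    have h2 : T (-((j + 1 : ℕ) : ℤ)) - T ((j + 1 : ℕ) : ℤ) = h := congrArg HG.h h1
    have h3 := hh j hj
    rw [← h2] at h3
    simp at h3
    split_ifs at h3 with h4
    · omega
    · omega
  · intro hj
    refine ⟨_, fun k hk => ?_, rfl⟩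
    have hne : j ≠ k := by rintro rfl; exact hj hk
    simp
    rw [if_neg (by omega), if_neg (by omega)]
    simp

theorem NS_injective {φ : F →* HG} {x y : F} (hx : φ x = HG.ga) (hy : φ y = HG.gt) :
    Function.Injective (NS φ) := by
  intro S S' h
  ext j
  have h1 := wd_mem hx hy S j
  have h2 := wd_mem hx hy S' j
  rw [h] at h1
  tauto

theorem NS_ne_top {φ : F →* HG} {x : F} (hx : φ x = HG.ga) (S : Set ℕ) : NS φ S ≠ ⊤ := by
  intro h
  have h1 : x ∈ NS φ S := h ▸ Subgroup.mem_top x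
  obtain ⟨h, -, h2⟩ := h1
  rw [hx] at h2
  have h3 : (1 : ℤ[T;T⁻¹]) = 0 := congrArg HG.f h2
  exact one_ne_zero h3

end

/-! ### The number of the normal members -/

section

variable {F : Type u} [Group F] [IsFreeGroup F]

/-- A nonabelian free group has two different generators. -/
theorem nontrivial_generators (hF : ∃ a b : F, a * b ≠ b * a) :
    Nontrivial (IsFreeGroup.Generators F) := by
  by_contra h
  rw [not_nontrivial_iff_subsingleton] at h
  obtain ⟨r, hr⟩ := FreeCent.exists_zpow_of_subsingleton (X := IsFreeGroup.Generators F)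
  obtain ⟨a, b, hab⟩ := hF
  apply hab
  apply (IsFreeGroup.toFreeGroup F).injective
  rw [map_mul, map_mul]
  obtain ⟨k, hk⟩ := hr (IsFreeGroup.toFreeGroup F a)
  obtain ⟨l, hl⟩ := hr (IsFreeGroup.toFreeGroup F b)
  rw [hk, hl, ← zpow_add, ← zpow_add, add_comm]

/-- The homomorphism to the group of matrices. -/
theorem exists_hom (hF : ∃ a b : F, a * b ≠ b * a) :
    ∃ (φ : F →* HG) (x y : F), φ x = HG.ga ∧ φ y = HG.gt := by
  classical
  have := nontrivial_generators hF
  obtain ⟨x, y, hxy⟩ := exists_pair_ne (IsFreeGroup.Generators F)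
  refine ⟨IsFreeGroup.lift fun z => if z = x then HG.ga else HG.gt, IsFreeGroup.of x,
    IsFreeGroup.of y, ?_, ?_⟩
  · rw [IsFreeGroup.lift_of, if_pos rfl]
  · rw [IsFreeGroup.lift_of, if_neg hxy.symm]

theorem of_ne_one (x : IsFreeGroup.Generators F) : IsFreeGroup.of x ≠ (1 : F) := by
  intro h
  let f : F →* Multiplicative ℤ := IsFreeGroup.lift fun _ => Multiplicative.ofAdd 1
  have h1 : f (IsFreeGroup.of x) = Multiplicative.ofAdd 1 := IsFreeGroup.lift_of _ _
  rw [h, f.map_one] at h1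
  have h3 : (0 : ℤ) = 1 := congrArg Multiplicative.toAdd h1
  omega

/-- The endomorphism which kills the generators outside `S`. -/
def kill (S : Set (IsFreeGroup.Generators F)) : F →* F := by
  classical
  exact IsFreeGroup.lift fun z => if z ∈ S then IsFreeGroup.of z else 1

theorem kill_mem {S : Set (IsFreeGroup.Generators F)} {x : IsFreeGroup.Generators F} (hx : x ∈ S) :
    kill S (IsFreeGroup.of x : F) = IsFreeGroup.of x := by
  classical
  unfold kill
  rw [IsFreeGroup.lift_of, if_pos hx]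

theorem kill_notMem {S : Set (IsFreeGroup.Generators F)} {x : IsFreeGroup.Generators F}
    (hx : x ∉ S) : kill S (IsFreeGroup.of x : F) = 1 := by
  classical
  unfold kill
  rw [IsFreeGroup.lift_of, if_neg hx]

omit [IsFreeGroup F] in
theorem ker_isolated {G : Type*} [Group G] (tf : ∀ (g : G) (n : ℕ), 0 < n → g ^ n = 1 → g = 1)
    (f : F →* G) : Isolated f.ker := by
  intro g n hn h
  rw [MonoidHom.mem_ker, map_pow] at h
  rw [MonoidHom.mem_ker]
  exact tf _ n hn h

theorem of_mem_ker_kill {S : Set (IsFreeGroup.Generators F)} {x : IsFreeGroup.Generators F} :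
    (IsFreeGroup.of x : F) ∈ (kill S : F →* F).ker ↔ x ∉ S := by
  rw [MonoidHom.mem_ker]
  by_cases hx : x ∈ S
  · rw [kill_mem hx]
    simp [hx, of_ne_one x]
  · rw [kill_notMem hx]
    simp [hx]

theorem kill_ker_injective {S S' : Set (IsFreeGroup.Generators F)}
    (h : (kill S : F →* F).ker = (kill S' : F →* F).ker) : S = S' := by
  ext x
  have h1 := of_mem_ker_kill (F := F) (S := S) (x := x)
  have h2 := of_mem_ker_kill (F := F) (S := S') (x := x)
  rw [h] at h1
  tauto

/-- The number of the normal members of Frobenius partitions. -/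
theorem card_eq (hF : ∃ a b : F, a * b ≠ b * a) :
    Cardinal.mk {N : Subgroup F // ∃ 𝒜, IsFrobeniusPartition N 𝒜} = 2 ^ Cardinal.mk F := by
  have hnt := nontrivial_generators hF
  have hX : Nonempty (IsFreeGroup.Generators F) := hnt.to_nonempty
  apply le_antisymm
  · rw [← Cardinal.mk_set]
    apply Cardinal.mk_le_of_injective (f := fun N : {N : Subgroup F //
      ∃ 𝒜, IsFrobeniusPartition N 𝒜} => (N.1 : Set F))
    intro N N' h
    apply Subtype.ext
    exact SetLike.coe_injective h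
  · have hcard : Cardinal.mk F = max (Cardinal.mk (IsFreeGroup.Generators F)) Cardinal.aleph0 := by
      rw [← Cardinal.mk_freeGroup]
      exact Cardinal.mk_congr (IsFreeGroup.toFreeGroup F).toEquiv
    rcases finite_or_infinite (IsFreeGroup.Generators F) with hfin | hinf
    · have h1 : Cardinal.mk F = Cardinal.aleph0 := by
        rw [hcard]
        exact max_eq_right (Cardinal.mk_le_aleph0)
      rw [h1]
      obtain ⟨φ, x, y, hx, hy⟩ := exists_hom hF
      have h2 : (2 : Cardinal.{u}) ^ Cardinal.aleph0.{u} = Cardinal.mk (ULift.{u} (Set ℕ)) := by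
        rw [Cardinal.mk_uLift, Cardinal.mk_set]
        simp
      rw [h2]
      apply Cardinal.mk_le_of_injective (f := fun S => (⟨NS φ S.down,
        (normal_member_iff hF _).mpr ⟨NS_normal _ _, NS_ne_top hx _, NS_isolated _ _⟩⟩ :
          {N : Subgroup F // ∃ 𝒜, IsFrobeniusPartition N 𝒜}))
      intro S S' h
      apply ULift.down_injective
      exact NS_injective hx hy (congrArg Subtype.val h)
    · have h1 : Cardinal.mk F = Cardinal.mk (IsFreeGroup.Generators F) := by
        rw [hcard]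
        exact max_eq_left (Cardinal.aleph0_le_mk _)
      rw [h1, ← Cardinal.mk_set]
      obtain ⟨e⟩ : Nonempty (Option (IsFreeGroup.Generators F) ≃ IsFreeGroup.Generators F) := by
        rw [← Cardinal.eq, Cardinal.mk_option]
        exact Cardinal.add_one_eq (Cardinal.aleph0_le_mk _)
      let ST : Set (IsFreeGroup.Generators F) → Set (IsFreeGroup.Generators F) :=
        fun T => insert (e none) ((fun x => e (some x)) '' T)
      have hST : Function.Injective ST := by
        intro T T' h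
        ext x
        have h2 : ∀ T, e (some x) ∈ ST T ↔ x ∈ T := by
          intro T
          simp [ST]
        rw [← h2 T, ← h2 T', h]
      apply Cardinal.mk_le_of_injective (f := fun T => (⟨(kill (ST T) : F →* F).ker,
        (normal_member_iff hF _).mpr ⟨inferInstance, ?_,
          ker_isolated (fun g n hn h => torsionFree_nat g n hn h) _⟩⟩ :
          {N : Subgroup F // ∃ 𝒜, IsFrobeniusPartition N 𝒜}))
      · intro T T' h
        exact hST (kill_ker_injective (congrArg Subtype.val h))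
      · intro h
        have h3 := (of_mem_ker_kill (F := F) (S := ST T) (x := e none)).mp
          (h ▸ Subgroup.mem_top _)
        exact h3 (Set.mem_insert _ _)

end

end

end Pool.Agent.KS6_95.FP
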