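import Pool.Agent.KS6_95.FP.NonIso

set_option autoImplicit false

/-!
The number of the normal members for which some Frobenius partition contains no complement is
also `2 ^ |F|`.
-/

namespace Pool.Agent.KS6_95.FP

open Pool.Agent.R629 LaurentPolynomial

universe u

section

variable {F : Type u} [Group F] [IsFreeGroup F]

theorem no_compl_of (hF : ∃ a b : F, a * b ≠ b * a) {N : Subgroup F} (hN : N.Normal)
    (hiso : Isolated N) {x y : F} (hxy : x * y * x⁻¹ * y⁻¹ ∉ N) :
    ∃ 𝒜, IsFrobeniusPartition N 𝒜 ∧ ∀ A ∈ 𝒜, N ⊔ A ≠ ⊤ := by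
  apply (no_compl_iff hF N).mpr
  refine ⟨hiso, ?_⟩
  rintro ⟨g, hg⟩
  apply hxy
  obtain ⟨k, hk⟩ := Subgroup.mem_zpowers_iff.mp (hg (x : F ⧸ N))
  obtain ⟨l, hl⟩ := Subgroup.mem_zpowers_iff.mp (hg (y : F ⧸ N))
  rw [← QuotientGroup.eq_one_iff, QuotientGroup.mk_mul, QuotientGroup.mk_mul,
    QuotientGroup.mk_mul, QuotientGroup.mk_inv, QuotientGroup.mk_inv, ← hk, ← hl,
    ← zpow_add, add_comm, zpow_add]
  group

omit [IsFreeGroup F] in
theorem NS_comm {φ : F →* HG} {x y : F} (hx : φ x = HG.ga) (hy : φ y = HG.gt) (S : Set ℕ) :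
    x * y * x⁻¹ * y⁻¹ ∉ NS φ S := by
  rintro ⟨h, -, h1⟩
  rw [map_mul, map_mul, map_mul, map_inv, map_inv, hx, hy, mul_inv_eq_iff_eq_mul,
    mul_inv_eq_iff_eq_mul] at h1
  have h2 := congrArg HG.f h1
  rw [HG.mul_def, HG.mul_def, HG.mul_def] at h2
  simp [HG.ga, HG.gt] at h2
  have h3 := congrArg (fun p : ℤ[T;T⁻¹] => p.coeff 1) h2
  simp only [T_apply, if_true] at h3
  rw [← T_zero, T_apply] at h3
  simp at h3

/-- The number of the normal members for which some Frobenius partition has no complement. -/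
theorem card_no_compl (hF : ∃ a b : F, a * b ≠ b * a) :
    Cardinal.mk {N : Subgroup F // ∃ 𝒜, IsFrobeniusPartition N 𝒜 ∧ ∀ A ∈ 𝒜, N ⊔ A ≠ ⊤} =
      2 ^ Cardinal.mk F := by
  have hnt := nontrivial_generators hF
  have hX : Nonempty (IsFreeGroup.Generators F) := hnt.to_nonempty
  apply le_antisymm
  · rw [← Cardinal.mk_set]
    apply Cardinal.mk_le_of_injective (f := fun N : {N : Subgroup F //
      ∃ 𝒜, IsFrobeniusPartition N 𝒜 ∧ ∀ A ∈ 𝒜, N ⊔ A ≠ ⊤} => (N.1 : Set F))
    intro N N' h
    apply Subtype.ext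
    exact SetLike.coe_injective h
  · have hcard : Cardinal.mk F = max (Cardinal.mk (IsFreeGroup.Generators F)) Cardinal.aleph0 := by
      rw [← Cardinal.mk_freeGroup]
      exact Cardinal.mk_congr (IsFreeGroup.toFreeGroup F).toEquiv
    rcases finite_or_infinite (IsFreeGroup.Generators F) with hfin | hinf
    · have h1 : Cardinal.mk F = Cardinal.aleph0 := by
        rw [hcard]
        exact max_eq_right (Cardinal.mk_le_aleph0)
      rw [h1]
      obtain ⟨φ, x, y, hx, hy⟩ := exists_hom hF
      have h2 : (2 : Cardinal.{u}) ^ Cardinal.aleph0.{u} = Cardinal.mk (ULift.{u} (Set ℕ)) := by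
        rw [Cardinal.mk_uLift, Cardinal.mk_set]
        simp
      rw [h2]
      apply Cardinal.mk_le_of_injective (f := fun S => (⟨NS φ S.down,
        no_compl_of hF (NS_normal _ _) (NS_isolated _ _) (NS_comm hx hy _)⟩ :
          {N : Subgroup F // ∃ 𝒜, IsFrobeniusPartition N 𝒜 ∧ ∀ A ∈ 𝒜, N ⊔ A ≠ ⊤}))
      intro S S' h
      apply ULift.down_injective
      exact NS_injective hx hy (congrArg Subtype.val h)
    · have h1 : Cardinal.mk F = Cardinal.mk (IsFreeGroup.Generators F) := by
        rw [hcard]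
        exact max_eq_left (Cardinal.aleph0_le_mk _)
      rw [h1, ← Cardinal.mk_set]
      obtain ⟨e⟩ : Nonempty (Option (Option (IsFreeGroup.Generators F)) ≃
          IsFreeGroup.Generators F) := by
        rw [← Cardinal.eq, Cardinal.mk_option, Cardinal.mk_option,
          Cardinal.add_one_eq (Cardinal.aleph0_le_mk _),
          Cardinal.add_one_eq (Cardinal.aleph0_le_mk _)]
      let ST : Set (IsFreeGroup.Generators F) → Set (IsFreeGroup.Generators F) :=
        fun T => insert (e none) (insert (e (some none)) ((fun x => e (some (some x))) '' T))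
      have hST : Function.Injective ST := by
        intro T T' h
        ext x
        have h2 : ∀ T, e (some (some x)) ∈ ST T ↔ x ∈ T := by
          intro T
          simp [ST]
        rw [← h2 T, ← h2 T', h]
      apply Cardinal.mk_le_of_injective (f := fun T => (⟨(kill (ST T) : F →* F).ker,
        no_compl_of hF inferInstance (ker_isolated (fun g n hn h => torsionFree_nat g n hn h) _)
          (x := IsFreeGroup.of (e none)) (y := IsFreeGroup.of (e (some none))) ?_⟩ :
          {N : Subgroup F // ∃ 𝒜, IsFrobeniusPartition N 𝒜 ∧ ∀ A ∈ 𝒜, N ⊔ A ≠ ⊤}))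
      · intro T T' h
        exact hST (kill_ker_injective (congrArg Subtype.val h))
      · intro h
        rw [MonoidHom.mem_ker, map_mul, map_mul, map_mul, map_inv, map_inv,
          kill_mem (Set.mem_insert _ _), kill_mem (Set.mem_insert_of_mem _ (Set.mem_insert _ _)),
          mul_inv_eq_one, mul_inv_eq_iff_eq_mul] at h
        refine of_not_comm (F := F) ?_ h
        intro h2
        have := e.injective h2
        simp at this

end

end Pool.Agent.KS6_95.FP
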