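import Pool.Agent.KS6_95.FP.Count

set_option autoImplicit false

/-!
Frobenius partitions of free groups of rank at least three with members which are not isomorphic.
-/

namespace Pool.Agent.KS6_95.FP

open Pool.Agent.R629 LaurentPolynomial

universe u

section

variable {F : Type u} [Group F] [IsFreeGroup F]

theorem of_not_comm {x y : IsFreeGroup.Generators F} (hxy : x ≠ y) :
    (IsFreeGroup.of x * IsFreeGroup.of y : F) ≠ IsFreeGroup.of y * IsFreeGroup.of x := by
  classical
  intro h
  let φ : F →* HG := IsFreeGroup.lift fun z => if z = x then HG.ga else HG.gt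
  have hx : φ (IsFreeGroup.of x) = HG.ga := by
    change IsFreeGroup.lift _ _ = _
    rw [IsFreeGroup.lift_of, if_pos rfl]
  have hy : φ (IsFreeGroup.of y) = HG.gt := by
    change IsFreeGroup.lift _ _ = _
    rw [IsFreeGroup.lift_of, if_neg hxy.symm]
  have h1 := congrArg φ h
  rw [map_mul, map_mul, hx, hy] at h1
  have h2 := congrArg HG.f h1
  rw [HG.mul_def, HG.mul_def] at h2
  simp [HG.ga, HG.gt] at h2
  have h3 := congrArg (fun p : ℤ[T;T⁻¹] => p.coeff 1) h2
  simp only [T_apply, if_true] at h3
  rw [← T_zero, T_apply] at h3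
  simp at h3

theorem mem_closure_of {C : Subgroup F}
    (h : ∀ z : IsFreeGroup.Generators F, (IsFreeGroup.of z : F) ∈ C) : C = ⊤ := by
  let f : F →* C := IsFreeGroup.lift fun z => ⟨IsFreeGroup.of z, h z⟩
  have hf : C.subtype.comp f = MonoidHom.id F := by
    apply IsFreeGroup.ext_hom
    intro a
    change ((f (IsFreeGroup.of a) : C) : F) = _
    change ((IsFreeGroup.lift _ (IsFreeGroup.of a) : C) : F) = _
    rw [IsFreeGroup.lift_of]
    rfl
  rw [eq_top_iff]
  intro g _
  have h1 : ((f g : C) : F) = g := congrArg (fun k : F →* F => k g) hf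
  rw [← h1]
  exact (f g).2

theorem non_iso (hF : ∃ a b : F, a * b ≠ b * a)
    (hF3 : ∀ a b : F, Subgroup.closure {a, b} ≠ ⊤) :
    ∃ (N : Subgroup F) (𝒜 : Set (Subgroup F)), IsFrobeniusPartition N 𝒜 ∧
      ∃ A ∈ 𝒜, ∃ B ∈ 𝒜, N ⊔ A = ⊤ ∧ N ⊓ A = ⊥ ∧ B ≠ ⊥ ∧ IsEmpty (A ≃* B) := by
  classical
  have hnt := nontrivial_generators hF
  obtain ⟨x, y, hxy⟩ := exists_pair_ne (IsFreeGroup.Generators F)
  obtain ⟨z, hzx, hzy⟩ : ∃ z : IsFreeGroup.Generators F, z ≠ x ∧ z ≠ y := by
    by_contra hcon
    push Not at hcon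
    apply hF3 (IsFreeGroup.of x) (IsFreeGroup.of y)
    apply mem_closure_of
    intro z
    by_cases h : z = x
    · rw [h]; exact Subgroup.subset_closure (by simp)
    · rw [hcon z h]; exact Subgroup.subset_closure (by simp)
  let S : Set (IsFreeGroup.Generators F) := {x, y}
  let f : F →* F := kill S
  have hfx : f (IsFreeGroup.of x) = IsFreeGroup.of x := kill_mem (by simp [S])
  have hfy : f (IsFreeGroup.of y) = IsFreeGroup.of y := kill_mem (by simp [S])
  have hfz : f (IsFreeGroup.of z) = 1 := kill_notMem (by simp [S, hzx, hzy])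
  have hff : ∀ g, f (f g) = f g := by
    have : f.comp f = f := by
      apply IsFreeGroup.ext_hom
      intro a
      change f (f (IsFreeGroup.of a)) = f (IsFreeGroup.of a)
      by_cases ha : a ∈ S
      · have : f (IsFreeGroup.of a) = IsFreeGroup.of a := kill_mem ha
        rw [this, this]
      · have : f (IsFreeGroup.of a) = 1 := kill_notMem ha
        rw [this, map_one]
    intro g
    exact congrArg (fun k : F →* F => k g) this
  have hiso : Isolated f.ker := ker_isolated (fun g n hn h => torsionFree_nat g n hn h) f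
  let s : (F ⧸ f.ker) →* F := QuotientGroup.lift f.ker f (fun n hn => hn)
  have hsf : ∀ g : F, s (g : F ⧸ f.ker) = f g := fun g => rfl
  have hs : ∀ q, ((s q : F) : F ⧸ f.ker) = q := by
    intro q
    obtain ⟨g, rfl⟩ := QuotientGroup.mk_surjective q
    rw [hsf, QuotientGroup.eq, MonoidHom.mem_ker, map_mul, map_inv, hff, inv_mul_cancel]
  have hmal := range_mal hiso s hs
  have hinf := range_inf s hs
  have hsup := range_sup s hs
  -- the exponent sum of `z`
  let δ : F →* Multiplicative ℤ := IsFreeGroup.lift fun w =>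
    if w = z then Multiplicative.ofAdd 1 else 1
  have hδz : δ (IsFreeGroup.of z) = Multiplicative.ofAdd 1 := by
    change IsFreeGroup.lift _ _ = _
    rw [IsFreeGroup.lift_of, if_pos rfl]
  have hδx : δ (IsFreeGroup.of x) = 1 := by
    change IsFreeGroup.lift _ _ = _
    rw [IsFreeGroup.lift_of, if_neg hzx.symm]
  have hδf : ∀ g, δ (f g) = 1 := by
    have : δ.comp f = 1 := by
      apply IsFreeGroup.ext_hom
      intro a
      change δ (f (IsFreeGroup.of a)) = 1
      by_cases ha : a ∈ S
      · have h1 : f (IsFreeGroup.of a) = IsFreeGroup.of a := kill_mem ha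
        rw [h1]
        change IsFreeGroup.lift _ _ = _
        rw [IsFreeGroup.lift_of, if_neg]
        rintro rfl
        rcases ha with ha | ha
        · exact hzx ha
        · exact hzy ha
      · have h1 : f (IsFreeGroup.of a) = 1 := kill_notMem ha
        rw [h1, map_one]
    intro g
    exact congrArg (fun k : F →* Multiplicative ℤ => k g) this
  have hone : (Multiplicative.ofAdd 1 : Multiplicative ℤ) ≠ 1 := by
    intro h
    have h3 : (1 : ℤ) = 0 := congrArg Multiplicative.toAdd h
    omega
  have hA1 : s.range ≠ ⊤ := by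
    intro h
    have h1 : (IsFreeGroup.of z : F) ∈ s.range := h ▸ Subgroup.mem_top _
    obtain ⟨q, hq⟩ := h1
    obtain ⟨g, rfl⟩ := QuotientGroup.mk_surjective q
    rw [hsf] at hq
    have h2 := hδf g
    rw [hq, hδz] at h2
    exact hone h2
  have htop : f.ker ≠ ⊤ := by
    intro h
    have h1 : (IsFreeGroup.of x : F) ∈ f.ker := h ▸ Subgroup.mem_top _
    rw [MonoidHom.mem_ker, hfx] at h1
    exact of_ne_one x h1
  refine ⟨f.ker, _, frobenius_of_compl hiso htop hF hmal hinf hA1, s.range,
    Or.inl (self_mem_conjs _), Subgroup.centralizer {IsFreeGroup.of z * IsFreeGroup.of x},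
    Or.inr ⟨_, ?_, ?_, rfl⟩, hsup, hinf, ?_, ?_⟩
  · rw [MonoidHom.mem_ker, map_mul, hfz, hfx, one_mul]
    exact of_ne_one x
  · rintro C ⟨γ, rfl⟩ h
    rw [mem_conj] at h
    obtain ⟨q, hq⟩ := h
    obtain ⟨g, rfl⟩ := QuotientGroup.mk_surjective q
    rw [hsf] at hq
    have h2 := hδf g
    rw [hq, map_mul, map_mul, map_mul, map_inv, hδz, hδx] at h2
    apply hone
    simp at h2
  · intro h
    have h1 : (IsFreeGroup.of z * IsFreeGroup.of x : F) ∈
      Subgroup.centralizer {(IsFreeGroup.of z * IsFreeGroup.of x : F)} := mem_cent.mpr rfl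
    rw [h, Subgroup.mem_bot] at h1
    have h2 := congrArg f h1
    rw [map_mul, hfz, hfx, one_mul, map_one] at h2
    exact of_ne_one x h2
  · refine ⟨fun e => ?_⟩
    let X : s.range := ⟨IsFreeGroup.of x, (IsFreeGroup.of x : F), by rw [hsf, hfx]⟩
    let Y : s.range := ⟨IsFreeGroup.of y, (IsFreeGroup.of y : F), by rw [hsf, hfy]⟩
    have hw : (IsFreeGroup.of z * IsFreeGroup.of x : F) ≠ 1 := by
      intro h
      have h2 := congrArg f h
      rw [map_mul, hfz, hfx, one_mul, map_one] at h2
      exact of_ne_one x h2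
    have h1 : e X * e Y = e Y * e X := by
      apply Subtype.ext
      exact FreeCent.comm_trans hw (mem_cent.mp (e X).2) (mem_cent.mp (e Y).2).symm
    rw [← map_mul, ← map_mul] at h1
    have h2 := e.injective h1
    exact of_not_comm hxy (congrArg Subtype.val h2)

end

end Pool.Agent.KS6_95.FP
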